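import Pool.Agent.Hhelper54.AC.Exist

/-!
# K-reducibility: invariance, prefixing a fixed string, the finite form of the question
-/

namespace KRD

open AC Low4 Encodable Denumerable

/-- prefix-free complexity of a string -/
noncomputable def kc (U : List Bool →. ℕ) (σ : List Bool) : ℕ := KC U (encode σ)

theorem KC_inv {U V : List Bool →. ℕ} (hU : IsOptimal ∅ U) (hV : IsOptimal ∅ V) :
    ∃ c : ℕ, ∀ x, KC V x ≤ KC U x + c := by
  obtain ⟨c, hc⟩ := hV.simulates U hU.machine
  refine ⟨c, fun x => ?_⟩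
  obtain ⟨σ, h1, h2⟩ := exists_KC hU x
  obtain ⟨τ, h3, h4⟩ := hc σ x h1
  have := KC_le h3
  omega

/-- the graph of the machine computing `f (U ρ)` -/
def Gf (U : List Bool →. ℕ) (f : ℕ → ℕ) (ρ : List Bool) (y : ℕ) : Prop :=
  ∃ x : ℕ, x ∈ U ρ ∧ f x = y

theorem Gf_unique {U : List Bool →. ℕ} {f : ℕ → ℕ} (ρ : List Bool) (x y : ℕ)
    (hx : Gf U f ρ x) (hy : Gf U f ρ y) : x = y := by
  obtain ⟨a, h1, rfl⟩ := hx
  obtain ⟨b, h2, rfl⟩ := hy
  rw [Part.mem_unique h1 h2]

theorem ce_Gf {B : Set ℕ} {U : List Bool →. ℕ} (hU : IsMachine B U) {f : ℕ → ℕ}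
    (hf : Computable f) : CE B fun z : List Bool × ℕ => Gf U f z.1 z.2 := by
  have hg := ce_graph (A := B) hU.recursive
  refine CE.ex (p := fun (z : List Bool × ℕ) (x : ℕ) => x ∈ U z.1 ∧ f x = z.2) ?_
  refine CE.and ?_ ?_
  · exact hg.comp (f := fun z : (List Bool × ℕ) × ℕ => (z.1.1, z.2))
      (Computable.pair (Computable.fst.comp Computable.fst) Computable.snd)
  · exact CE.of_sig1 (Lowk.sig_eq (hf.comp Computable.snd)
      (Computable.snd.comp Computable.fst))

theorem isMachine_Gf {B : Set ℕ} {U : List Bool →. ℕ} (hU : IsMachine B U) {f : ℕ → ℕ}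
    (hf : Computable f) : IsMachine B (partOf (Gf U f)) := by
  refine ⟨recursiveIn_of_ce (ce_Gf hU hf) Gf_unique, ?_⟩
  rintro σ τ ⟨x, a, hx, -⟩ ⟨y, b, hy, -⟩ hp
  exact hU.prefixFree σ τ (Part.dom_iff_mem.2 ⟨a, hx⟩) (Part.dom_iff_mem.2 ⟨b, hy⟩) hp

theorem KC_map {B : Set ℕ} {U : List Bool →. ℕ} (hU : IsOptimal B U) {f : ℕ → ℕ}
    (hf : Computable f) : ∃ c : ℕ, ∀ x, KC U (f x) ≤ KC U x + c := by
  obtain ⟨c, hc⟩ := hU.simulates _ (isMachine_Gf hU.machine hf)
  refine ⟨c, fun x => ?_⟩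
  obtain ⟨σ, h1, h2⟩ := exists_KC hU x
  obtain ⟨τ, h3, h4⟩ := hc σ (f x) ((mem_partOf Gf_unique).2 ⟨x, h1, rfl⟩)
  have := KC_le h3
  omega

/-- computable maps of strings do not increase the complexity by more than a constant -/
theorem kc_map {B : Set ℕ} {U : List Bool →. ℕ} (hU : IsOptimal B U)
    {f : List Bool → List Bool} (hf : Computable f) : ∃ c : ℕ, ∀ σ, kc U (f σ) ≤ kc U σ + c := by
  obtain ⟨c, hc⟩ := KC_map hU (f := fun x => encode (f ((decode (α := List Bool) x).getD [])))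
    (Computable.encode.comp (hf.comp (Computable.option_getD Computable.decode
      (Computable.const []))))
  refine ⟨c, fun σ => ?_⟩
  have := hc (encode σ)
  simpa [kc, encodek] using this

theorem kc_append {B : Set ℕ} {U : List Bool →. ℕ} (hU : IsOptimal B U) (τ : List Bool) :
    ∃ c : ℕ, ∀ σ, kc U (τ ++ σ) ≤ kc U σ + c :=
  kc_map hU (f := fun σ => τ ++ σ) (Computable.list_append.comp (Computable.const τ) Computable.id)

theorem computable_drop (k : ℕ) : Computable fun σ : List Bool => σ.drop k := by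
  induction k with
  | zero => exact Computable.id.of_eq fun σ => by simp
  | succ k ih =>
    have h : Computable fun σ : List Bool => σ.tail := Primrec.list_tail.to_comp
    exact (h.comp ih).of_eq fun σ => by simp [List.tail_drop]

theorem kc_drop {B : Set ℕ} {U : List Bool →. ℕ} (hU : IsOptimal B U) (k : ℕ) :
    ∃ c : ℕ, ∀ σ, kc U (σ.drop k) ≤ kc U σ + c :=
  kc_map hU (computable_drop k)

/-- one constant for all strings of a given length -/
theorem kc_append_unif {B : Set ℕ} {U : List Bool →. ℕ} (hU : IsOptimal B U) (k : ℕ) :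
    ∃ c : ℕ, ∀ τ : List Bool, τ.length = k → ∀ σ, kc U (τ ++ σ) ≤ kc U σ + c := by
  choose c hc using kc_append hU
  refine ⟨((TA.strs k).map c).sum, fun τ hτ σ => ?_⟩
  have h1 : c τ ≤ ((TA.strs k).map c).sum :=
    List.single_le_sum (by simp) _ (List.mem_map_of_mem (TA.mem_strs.2 hτ))
  have := hc τ σ
  omega

/-! ### the finite form -/

/-- `β` is a host of `α` with the constant `c`, on all initial segments -/
def Good (U : List Bool →. ℕ) (c : ℕ) (α β : List Bool) : Prop :=
  ∀ i ≤ α.length, i ≤ kc U (β.take i) + c ∧ kc U (α.take i) ≤ kc U (β.take i) + c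

/-- `α` has a host of the same length with the constant `c` -/
def Host (U : List Bool →. ℕ) (c : ℕ) (α : List Bool) : Prop :=
  ∃ β : List Bool, β.length = α.length ∧ Good U c α β

/-- the uniform finite form of the question -/
def Fin1 (U : List Bool →. ℕ) : Prop := ∃ c : ℕ, ∀ α, Host U c α

/-- `B` is a host of `A` with the constant `c` -/
def HostInf (U : List Bool →. ℕ) (c : ℕ) (A B : Set ℕ) : Prop :=
  ∀ n, n ≤ kc U (pre B n) + c ∧ kc U (pre A n) ≤ kc U (pre B n) + c

theorem Host.mono {U : List Bool →. ℕ} {c d : ℕ} (h : c ≤ d) {α : List Bool} (hα : Host U c α) :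
    Host U d α := by
  obtain ⟨β, h1, h2⟩ := hα
  exact ⟨β, h1, fun i hi => ⟨by have := (h2 i hi).1; omega, by have := (h2 i hi).2; omega⟩⟩

theorem Host.take {U : List Bool →. ℕ} {c : ℕ} {α : List Bool} (hα : Host U c α) (n : ℕ)
    (hn : n ≤ α.length) : Host U c (α.take n) := by
  obtain ⟨β, h1, h2⟩ := hα
  refine ⟨β.take n, by simp [h1], fun i hi => ?_⟩
  have hi' : i ≤ n := by simpa [hn] using hi
  rw [List.take_take, List.take_take, min_eq_left hi']
  exact h2 i (hi'.trans hn)

theorem HostInf.host {U : List Bool →. ℕ} {c : ℕ} {A B : Set ℕ} (h : HostInf U c A B) (n : ℕ) :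
    Host U c (pre A n) := by
  refine ⟨pre B n, by simp, fun i hi => ?_⟩
  have hi' : i ≤ n := by simpa using hi
  rw [pre_take A _ _ hi', pre_take B _ _ hi']
  exact h i

/-- compactness -/
theorem exists_hostInf {U : List Bool →. ℕ} {c : ℕ} {A : Set ℕ} (h : ∀ n, Host U c (pre A n)) :
    ∃ B, HostInf U c A B := by
  by_contra hcon
  push Not at hcon
  obtain ⟨N, hN⟩ := compact_tree (fun τ => ∃ i ≤ τ.length,
      ¬ (i ≤ kc U (τ.take i) + c ∧ kc U (pre A i) ≤ kc U (τ.take i) + c)) (by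
    rintro σ τ ⟨ρ, rfl⟩ ⟨i, hi, hD⟩
    refine ⟨i, by rw [List.length_append]; omega, ?_⟩
    rwa [List.take_append_of_le_length hi]) (by
    intro X
    have h1 := hcon X
    unfold HostInf at h1
    push Not at h1
    obtain ⟨n, hn⟩ := h1
    refine ⟨n, n, by simp, ?_⟩
    rw [pre_take X n n le_rfl]
    intro h2
    exact absurd h2.2 (not_le.2 (hn h2.1)))
  obtain ⟨β, h1, h2⟩ := h N
  rw [pre_length] at h1
  obtain ⟨i, hi, hD⟩ := hN β h1
  apply hD
  have h3 := h2 i (by rw [pre_length]; omega)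
  rwa [pre_take A N i (by omega)] at h3

/-- transfer above a string -/
theorem transfer {U : List Bool →. ℕ} (hU : IsOptimal ∅ U) (τ : List Bool) :
    ∃ k : ℕ, ∀ c α, Host U c (τ ++ α) → Host U (c + k) α := by
  obtain ⟨k1, hk1⟩ := kc_append_unif hU τ.length
  obtain ⟨k2, hk2⟩ := kc_drop hU τ.length
  refine ⟨k1 + k2, fun c α hα => ?_⟩
  obtain ⟨β, h1, h2⟩ := hα
  rw [List.length_append] at h1
  refine ⟨β.drop τ.length, by rw [List.length_drop]; omega, fun i hi => ?_⟩
  have h3 := h2 (τ.length + i) (by rw [List.length_append]; omega)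
  have e1 : β.take (τ.length + i) = β.take τ.length ++ (β.drop τ.length).take i := by
    rw [List.take_add]
  have e2 : (τ ++ α).take (τ.length + i) = τ ++ α.take i := by
    rw [List.take_append]
    simp
  have h4 := hk1 (β.take τ.length) (by rw [List.length_take]; omega) ((β.drop τ.length).take i)
  have h5 := hk2 (τ ++ α.take i)
  rw [List.drop_left] at h5
  rw [e1, e2] at h3
  omega

/-- if the finite form fails then it fails above every string, for every constant -/
theorem exists_bad {U : List Bool →. ℕ} (hU : IsOptimal ∅ U) (h : ¬ Fin1 U) (τ : List Bool)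
    (c : ℕ) : ∃ α : List Bool, ¬ Host U c (τ ++ α) := by
  obtain ⟨k, hk⟩ := transfer hU τ
  unfold Fin1 at h
  push Not at h
  obtain ⟨α, hα⟩ := h (c + k)
  exact ⟨α, fun h => hα (hk c α h)⟩

end KRD
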