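import Pool.Agent.KRD.Schnorr
import Pool.Agent.Hhelper75.Low4.Gen

/-!
# A low 1-generic counterexample, if there is a counterexample at all
-/

namespace KRD

open AC Low4 Encodable Denumerable

/-! ### decidability from the halting set -/

theorem dec_le {U : List Bool →. ℕ} (hU : IsOptimal ∅ U) :
    Dec halting fun z : List Bool × ℕ => kc U z.1 ≤ z.2 :=
  (RI.dec_halting (sig_short hU.machine)).of_eq fun z => short_iff hU z.1 z.2

theorem ce_ofDec {α : Type} [Primcodable α] {A : Set ℕ} {p : α → Prop} (h : Dec A p) : CE A p := h.1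

/-- `i ≤ kc σ + c` -/
theorem dec_high {U : List Bool →. ℕ} (hU : IsOptimal ∅ U) :
    Dec halting fun z : (ℕ × ℕ) × List Bool => z.1.1 ≤ kc U z.2 + z.1.2 := by
  have h1 : Dec halting fun z : (ℕ × ℕ) × List Bool => kc U z.2 ≤ z.1.1 - z.1.2 - 1 :=
    (dec_le hU).comp (f := fun z : (ℕ × ℕ) × List Bool => (z.2, z.1.1 - z.1.2 - 1))
      (Computable.pair Computable.snd (Primrec.nat_sub.to_comp.comp (Primrec.nat_sub.to_comp.comp
        (Computable.fst.comp Computable.fst) (Computable.snd.comp Computable.fst))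
        (Computable.const 1)))
  have h2 : Dec halting fun z : (ℕ × ℕ) × List Bool => decide (z.1.2 < z.1.1) = true :=
    Dec.of_computable (Primrec.nat_lt.decide.to_comp.comp (Computable.snd.comp Computable.fst)
      (Computable.fst.comp Computable.fst))
  refine (Dec.not (Dec.and h2 h1)).of_eq fun z => ?_
  rw [decide_eq_true_iff]
  constructor
  · intro h
    by_contra h3
    exact h ⟨by omega, by omega⟩
  · rintro h ⟨h3, h4⟩
    omega

/-- `kc α ≤ kc β + c` -/
theorem dec_cmp {U : List Bool →. ℕ} (hU : IsOptimal ∅ U) :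
    Dec halting fun z : ℕ × (List Bool × List Bool) => kc U z.2.1 ≤ kc U z.2.2 + z.1 := by
  have hle := dec_le hU
  have f1 : Computable fun x : (ℕ × (List Bool × List Bool)) × ℕ => (x.1.2.2, x.2) :=
    Computable.pair (Computable.snd.comp (Computable.snd.comp Computable.fst)) Computable.snd
  have f2 : Computable fun x : (ℕ × (List Bool × List Bool)) × ℕ => (x.1.2.1, x.2 + x.1.1) :=
    Computable.pair (Computable.fst.comp (Computable.snd.comp Computable.fst))
      (Primrec.nat_add.to_comp.comp Computable.snd (Computable.fst.comp Computable.fst))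
  have f3 : Computable fun x : (ℕ × (List Bool × List Bool)) × ℕ => (x.1.2.2, x.2 - 1) :=
    Computable.pair (Computable.snd.comp (Computable.snd.comp Computable.fst))
      (Primrec.nat_sub.to_comp.comp Computable.snd (Computable.const 1))
  have h1 : Dec halting fun x : (ℕ × (List Bool × List Bool)) × ℕ => kc U x.1.2.2 ≤ x.2 :=
    hle.comp f1
  have h2 : Dec halting fun x : (ℕ × (List Bool × List Bool)) × ℕ =>
      kc U x.1.2.1 ≤ x.2 + x.1.1 := hle.comp f2
  have h3 : Dec halting fun x : (ℕ × (List Bool × List Bool)) × ℕ => kc U x.1.2.2 ≤ x.2 - 1 :=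
    hle.comp f3
  have h4 : Dec halting fun x : (ℕ × (List Bool × List Bool)) × ℕ => decide (0 < x.2) = true :=
    Dec.of_computable (Primrec.nat_lt.decide.to_comp.comp (Computable.const 0) Computable.snd)
  constructor
  · refine (CE.ex (p := fun (z : ℕ × (List Bool × List Bool)) (k : ℕ) =>
      kc U z.2.2 ≤ k ∧ ¬ (decide (0 < k) = true ∧ kc U z.2.2 ≤ k - 1) ∧
        kc U z.2.1 ≤ k + z.1) (h1.1.and ((Dec.not (Dec.and h4 h3)).1.and h2.1))).of_eq fun z => ?_
    simp only [decide_eq_true_eq]
    constructor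
    · rintro ⟨k, a, b, c⟩
      by_cases hk : 0 < k
      · have : ¬ kc U z.2.2 ≤ k - 1 := fun h => b ⟨hk, h⟩
        omega
      · omega
    · intro h
      exact ⟨kc U z.2.2, le_rfl, fun h => by omega, h⟩
  · refine (CE.ex (p := fun (z : ℕ × (List Bool × List Bool)) (k : ℕ) =>
      kc U z.2.2 ≤ k ∧ ¬ kc U z.2.1 ≤ k + z.1) (h1.1.and h2.2)).of_eq fun z => ?_
    constructor
    · rintro ⟨k, a, b⟩
      omega
    · intro h
      exact ⟨kc U z.2.2, le_rfl, h⟩

/-- one level of the hosting relation, `z = (c, (α, β), i)` -/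
theorem dec_lev {U : List Bool →. ℕ} (hU : IsOptimal ∅ U) :
    Dec halting fun z : (ℕ × (List Bool × List Bool)) × ℕ =>
      z.2 ≤ kc U (z.1.2.2.take z.2) + z.1.1 ∧
        kc U (z.1.2.1.take z.2) ≤ kc U (z.1.2.2.take z.2) + z.1.1 := by
  have e1 : Computable fun z : (ℕ × (List Bool × List Bool)) × ℕ => z.1.2.1.take z.2 :=
    Primrec.list_take.to_comp.comp Computable.snd
      (Computable.fst.comp (Computable.snd.comp Computable.fst))
  have e2 : Computable fun z : (ℕ × (List Bool × List Bool)) × ℕ => z.1.2.2.take z.2 :=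
    Primrec.list_take.to_comp.comp Computable.snd
      (Computable.snd.comp (Computable.snd.comp Computable.fst))
  refine Dec.and ?_ ?_
  · exact (dec_high hU).comp (f := fun z : (ℕ × (List Bool × List Bool)) × ℕ =>
      ((z.2, z.1.1), z.1.2.2.take z.2))
      (Computable.pair (Computable.pair Computable.snd (Computable.fst.comp Computable.fst)) e2)
  · exact (dec_cmp hU).comp (f := fun z : (ℕ × (List Bool × List Bool)) × ℕ =>
      (z.1.1, (z.1.2.1.take z.2, z.1.2.2.take z.2)))
      (Computable.pair (Computable.fst.comp Computable.fst) (Computable.pair e1 e2))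

theorem dec_good {U : List Bool →. ℕ} (hU : IsOptimal ∅ U) :
    Dec halting fun z : ℕ × (List Bool × List Bool) => Good U z.1 z.2.1 z.2.2 := by
  have hl := dec_lev hU
  have hf : Computable fun z : ℕ × (List Bool × List Bool) => z.2.1.length + 1 :=
    Computable.succ.comp (Computable.list_length.comp (Computable.fst.comp Computable.snd))
  constructor
  · refine (CE.ball (p := fun (z : ℕ × (List Bool × List Bool)) (i : ℕ) =>
      i ≤ kc U (z.2.2.take i) + z.1 ∧ kc U (z.2.1.take i) ≤ kc U (z.2.2.take i) + z.1)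
      hl.1 hf).of_eq fun z => ?_
    unfold Good
    constructor
    · intro h i hi
      exact h i (by omega)
    · intro h i hi
      exact h i (by omega)
  · have h2 : CE halting fun z : (ℕ × (List Bool × List Bool)) × ℕ =>
        decide (z.2 < z.1.2.1.length + 1) = true :=
      CE.of_sig1 (Sig1.of_computable (Primrec.nat_lt.decide.to_comp.comp Computable.snd
        (hf.comp Computable.fst)))
    refine (CE.ex (p := fun (z : ℕ × (List Bool × List Bool)) (i : ℕ) =>
      decide (i < z.2.1.length + 1) = true ∧ ¬ (i ≤ kc U (z.2.2.take i) + z.1 ∧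
        kc U (z.2.1.take i) ≤ kc U (z.2.2.take i) + z.1)) (h2.and hl.2)).of_eq fun z => ?_
    unfold Good
    rw [not_forall]
    constructor
    · rintro ⟨i, h3, h4⟩
      rw [decide_eq_true_iff] at h3
      exact ⟨i, fun h => h4 (h (by omega))⟩
    · rintro ⟨i, h3⟩
      rw [Classical.not_imp] at h3
      exact ⟨i, by rw [decide_eq_true_iff]; omega, h3.2⟩

theorem dec_host {U : List Bool →. ℕ} (hU : IsOptimal ∅ U) :
    Dec halting fun z : ℕ × List Bool => Host U z.1 z.2 := by
  have hg := dec_good hU
  have f1 : Computable fun x : (ℕ × List Bool) × List Bool => (x.1.1, (x.1.2, x.2)) :=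
    Computable.pair (Computable.fst.comp Computable.fst)
      (Computable.pair (Computable.snd.comp Computable.fst) Computable.snd)
  constructor
  · refine CE.ex (p := fun (z : ℕ × List Bool) (β : List Bool) =>
      β.length = z.2.length ∧ Good U z.1 z.2 β) ?_
    refine CE.and ?_ (hg.1.comp f1)
    exact CE.of_sig1 (Lowk.sig_eq (Computable.list_length.comp Computable.snd)
      (Computable.list_length.comp (Computable.snd.comp Computable.fst)))
  · refine (ce_forall_strings (p := fun (z : ℕ × List Bool) (β : List Bool) =>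
      ¬ Good U z.1 z.2 β) (f := fun z => z.2.length) (hg.2.comp f1)
      (Computable.list_length.comp Computable.snd)).of_eq fun z => ?_
    unfold Host
    rw [not_exists]
    exact forall_congr' fun β => by rw [not_and]

/-! ### the construction -/

/-- the string with number `k` -/
def sd (k : ℕ) : List Bool := (decode (α := List Bool) k).getD []

theorem sd_encode (α : List Bool) : sd (encode α) = α := by simp [sd]

theorem computable_sd : Computable sd :=
  Computable.option_getD Computable.decode (Computable.const [])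

theorem red_J_empty : Red (J ∅) halting := RI.dec_halting (sig_of_ce_empty (ce_J ∅))

/-- the next string: first a string in the dense set, then one step towards 1-genericity -/
def Nx (D : ℕ → List Bool → Prop) (_ : Unit) (n : ℕ) (σ τ : List Bool) : Prop :=
  ∃ k : ℕ, τ = next ∅ n (σ ++ sd k) ∧
    D n (σ ++ sd k) ∧ ∀ j < k, ¬ D n (σ ++ sd j)

theorem ce_Nx {D : ℕ → List Bool → Prop} (hh : Dec halting fun z : ℕ × List Bool => D z.1 z.2) :
    CE halting fun z : (Unit × ℕ) × (List Bool × List Bool) => Nx D z.1.1 z.1.2 z.2.1 z.2.2 := by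
  unfold Nx
  refine CE.ex (p := fun (z : (Unit × ℕ) × (List Bool × List Bool)) (k : ℕ) =>
    z.2.2 = next ∅ z.1.2 (z.2.1 ++ sd k) ∧
    D z.1.2 (z.2.1 ++ sd k) ∧
      ∀ j < k, ¬ D z.1.2 (z.2.1 ++ sd j)) ?_
  have es : Computable fun x : ((Unit × ℕ) × (List Bool × List Bool)) × ℕ => x.1.2.1 :=
    Computable.fst.comp (Computable.snd.comp Computable.fst)
  have en : Computable fun x : ((Unit × ℕ) × (List Bool × List Bool)) × ℕ => x.1.1.2 :=
    Computable.snd.comp (Computable.fst.comp Computable.fst)
  have ek : Computable fun x : ((Unit × ℕ) × (List Bool × List Bool)) × ℕ =>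
      sd x.2 := computable_sd.comp Computable.snd
  refine CE.and ?_ (CE.and ?_ ?_)
  · exact ((ce_next ∅).trans red_J_empty).comp
      (f := fun x : ((Unit × ℕ) × (List Bool × List Bool)) × ℕ =>
        ((x.1.1.2, x.1.2.1 ++ sd x.2), x.1.2.2))
      (Computable.pair (Computable.pair en (Computable.list_append.comp es ek))
        (Computable.snd.comp (Computable.snd.comp Computable.fst)))
  · exact hh.1.comp (f := fun x : ((Unit × ℕ) × (List Bool × List Bool)) × ℕ =>
        (x.1.1.2, x.1.2.1 ++ sd x.2)) (Computable.pair en (Computable.list_append.comp es ek))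
  · refine CE.ball (p := fun (x : ((Unit × ℕ) × (List Bool × List Bool)) × ℕ) (j : ℕ) =>
      ¬ D x.1.1.2 (x.1.2.1 ++ sd j)) ?_ Computable.snd
    exact hh.2.comp (f := fun y : (((Unit × ℕ) × (List Bool × List Bool)) × ℕ) × ℕ =>
        (y.1.1.1.2, y.1.1.2.1 ++ sd y.2))
      (Computable.pair (en.comp Computable.fst) (Computable.list_append.comp
        (es.comp Computable.fst) (computable_sd.comp Computable.snd)))

/-- the strings of the construction -/
def Seq (D : ℕ → List Bool → Prop) (n : ℕ) (σ : List Bool) : Prop :=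
  It (fun _ : Unit => ([] : List Bool)) (Nx D) () n σ

theorem ce_Seq {D : ℕ → List Bool → Prop} (hh : Dec halting fun z : ℕ × List Bool => D z.1 z.2) :
    CE halting fun z : ℕ × List Bool => Seq D z.1 z.2 := by
  have h := ce_It (A := halting) (x0 := fun _ : Unit => ([] : List Bool)) (N := Nx D)
    (Computable.const _) (ce_Nx hh)
  exact h.comp (f := fun z : ℕ × List Bool => ((), (z.1, z.2)))
    (Computable.pair (Computable.const ()) (Computable.pair Computable.fst Computable.snd))

theorem Nx_unique {D : ℕ → List Bool → Prop} {n : ℕ} {σ τ τ' : List Bool} (h : Nx D () n σ τ)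
    (h' : Nx D () n σ τ') : τ = τ' := by
  obtain ⟨k, h1, h2, h3⟩ := h
  obtain ⟨k', h1', h2', h3'⟩ := h'
  have : k = k' := by
    rcases lt_trichotomy k k' with hk | hk | hk
    · exact absurd h2 (h3' k hk)
    · exact hk
    · exact absurd h2' (h3 k' hk)
  subst this
  rw [h1, h1']

theorem Nx_exists {D : ℕ → List Bool → Prop} (hd : ∀ n σ, ∃ α, D n (σ ++ α)) (n : ℕ)
    (σ : List Bool) : ∃ τ, Nx D () n σ τ := by
  classical
  obtain ⟨α, hα⟩ := hd n σ
  have hex : ∃ k, D n (σ ++ sd k) := ⟨encode α, by rwa [sd_encode]⟩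
  exact ⟨_, Nat.find hex, rfl, Nat.find_spec hex, fun j hj => Nat.find_min hex hj⟩

theorem Seq_exists {D : ℕ → List Bool → Prop} (hd : ∀ n σ, ∃ α, D n (σ ++ α)) (n : ℕ) :
    ∃ σ, Seq D n σ := by
  induction n with
  | zero => exact ⟨_, It.zero⟩
  | succ n ih =>
    obtain ⟨σ, hσ⟩ := ih
    obtain ⟨τ, hτ⟩ := Nx_exists hd n σ
    exact ⟨τ, It.succ hσ hτ⟩

theorem Seq_unique {D : ℕ → List Bool → Prop} {n : ℕ} {σ τ : List Bool} (h : Seq D n σ)
    (h' : Seq D n τ) : σ = τ := by
  induction n generalizing σ τ with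
  | zero =>
    cases h
    cases h'
    rfl
  | succ n ih =>
    cases h with
    | succ h1 h2 =>
      cases h' with
      | succ h1' h2' =>
        have := ih h1 h1'
        subst this
        exact Nx_unique h2 h2'

theorem Seq_le {D : ℕ → List Bool → Prop} {m n : ℕ} (hmn : m ≤ n) {σ τ : List Bool} (h : Seq D m σ)
    (h' : Seq D n τ) : σ <+: τ := by
  induction n generalizing τ with
  | zero =>
    have : m = 0 := by omega
    subst this
    rw [Seq_unique h h']
  | succ n ih =>
    rcases Nat.lt_succ_iff_lt_or_eq.1 (Nat.lt_succ_of_le hmn) with hlt | rfl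
    · cases h' with
      | @succ _ x _ h1 h2 =>
        obtain ⟨k, h3, -⟩ := h2
        refine (ih (by omega) h1).trans ?_
        rw [h3]
        exact (List.prefix_append _ _).trans (next_prefix _ _ _)
    · rw [Seq_unique h h']

theorem Seq_length {D : ℕ → List Bool → Prop} {n : ℕ} {σ : List Bool} (h : Seq D n σ) :
    n ≤ σ.length := by
  induction n generalizing σ with
  | zero => exact Nat.zero_le _
  | succ n ih =>
    cases h with
    | @succ _ x _ h1 h2 =>
      obtain ⟨k, h3, -⟩ := h2
      have h5 := ih h1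
      have h6 := next_length ∅ n (x ++ sd k)
      rw [List.length_append] at h6
      rw [h3]
      omega

/-- the set -/
def SA (D : ℕ → List Bool → Prop) : Set ℕ := {i | ∃ z : ℕ × List Bool, Seq D z.1 z.2 ∧
  z.2[i]? = some true}

theorem pre_SA {D : ℕ → List Bool → Prop} {n : ℕ} {σ : List Bool} (h : Seq D n σ) :
    pre (SA D) σ.length = σ := by
  have key : ∀ i b, i < σ.length → σ[i]? = some b → (i ∈ SA D ↔ b = true) := by
    intro i b hi hb
    constructor
    · rintro ⟨⟨m, τ⟩, h1, h2⟩
      simp only at h1 h2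
      have h3 : τ[i]? = σ[i]? := by
        have hit : i < τ.length := by
          by_contra hcon
          rw [List.getElem?_eq_none (not_lt.1 hcon)] at h2
          exact absurd h2 (by simp)
        rcases le_total m n with hmn | hmn
        · obtain ⟨ρ, hρ⟩ := Seq_le hmn h1 h
          rw [← hρ, List.getElem?_append_left hit]
        · obtain ⟨ρ, hρ⟩ := Seq_le hmn h h1
          rw [← hρ, List.getElem?_append_left hi]
      rw [h3, hb] at h2
      exact Option.some.inj h2
    · rintro rfl
      exact ⟨(n, σ), h, hb⟩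
  apply List.ext_getElem?
  intro i
  by_cases hi : i < σ.length
  · rw [pre_getElem? _ _ _ hi, List.getElem?_eq_getElem hi]
    have := key i _ hi (List.getElem?_eq_getElem hi)
    congr 1
    rw [Bool.eq_iff_iff, ← this]
    simp
  · rw [pre_getElem?_none _ _ _ (not_lt.1 hi), List.getElem?_eq_none (not_lt.1 hi)]

theorem red_SA {D : ℕ → List Bool → Prop} (hh : Dec halting fun z : ℕ × List Bool => D z.1 z.2)
    (hd : ∀ n σ, ∃ α, D n (σ ++ α)) : Red (SA D) halting := by
  have hget : ∀ b : Bool, CE halting fun i : ℕ => ∃ z : ℕ × List Bool, Seq D z.1 z.2 ∧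
      z.2[i]? = some b := by
    intro b
    refine CE.ex (p := fun (i : ℕ) (z : ℕ × List Bool) => Seq D z.1 z.2 ∧ z.2[i]? = some b) ?_
    refine CE.and ((ce_Seq hh).comp Computable.snd) ?_
    exact Itr.ce_get (l := fun x : ℕ × (ℕ × List Bool) => x.2.2) (i := fun x => x.1)
      (x := fun _ => b) (Computable.snd.comp Computable.snd) Computable.fst (Computable.const b)
  refine ⟨hget true, (hget false).of_eq fun i => ?_⟩
  obtain ⟨σ, hσ⟩ := Seq_exists hd (i + 1)
  have hi : i < σ.length := Seq_length hσ
  have h1 : i ∈ SA D ↔ σ[i]? = some true := by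
    have h2 := pre_SA hσ
    rw [← h2, pre_getElem? _ _ _ hi]
    simp
  constructor
  · rintro ⟨⟨m, τ⟩, h3, h4⟩ h5
    simp only at h3 h4
    have h6 := pre_SA h3
    have hit : i < τ.length := by
      by_contra hcon
      rw [List.getElem?_eq_none (not_lt.1 hcon)] at h4
      exact absurd h4 (by simp)
    rw [← h6, pre_getElem? _ _ _ hit] at h4
    simp only [Option.some.injEq, decide_eq_false_iff_not] at h4
    exact h4 h5
  · intro h3
    refine ⟨(i + 1, σ), hσ, ?_⟩
    show σ[i]? = some false
    have h4 : ¬ (σ[i]? = some true) := fun h5 => h3 (h1.2 h5)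
    rw [List.getElem?_eq_getElem hi] at h4 ⊢
    simpa using h4

theorem bad_SA {D : ℕ → List Bool → Prop} (hd : ∀ n σ, ∃ α, D n (σ ++ α)) (c : ℕ) :
    ∃ n, D c (pre (SA D) n) := by
  obtain ⟨τ, hτ⟩ := Seq_exists hd (c + 1)
  have hpre := pre_SA hτ
  cases hτ with
  | @succ _ σ _ h1 h2 =>
    obtain ⟨k, h3, h4, -⟩ := h2
    refine ⟨(σ ++ sd k).length, ?_⟩
    have h5 : σ ++ sd k <+: pre (SA D) τ.length := by
      rw [hpre, h3]
      exact next_prefix _ _ _
    rw [← eq_pre_of_le h5]
    exact h4

theorem generic_SA {D : ℕ → List Bool → Prop} (hd : ∀ n σ, ∃ α, D n (σ ++ α)) :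
    Generic (SA D) ∅ := by
  intro W hW
  obtain ⟨e, he⟩ := U_universal hW
  obtain ⟨τ, hτ⟩ := Seq_exists hd (e + 1)
  have hpre := pre_SA hτ
  cases hτ with
  | @succ _ σ _ h1 h2 =>
    obtain ⟨k, h3, -, -⟩ := h2
    by_cases hx : ∃ n, PN ∅ e (σ ++ sd k) n
    · obtain ⟨ρ, h4, h5, h6⟩ := next_of_ex hx
      refine ⟨ρ.length, Or.inl ?_⟩
      have h7 : ρ <+: pre (SA D) τ.length := by
        rw [hpre, h3, h6]
        exact List.prefix_append _ _
      rw [← eq_pre_of_le h7]
      exact (he ρ).2 h5
    · have h7 : σ ++ sd k <+: pre (SA D) τ.length := by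
        rw [hpre, h3]
        exact next_prefix _ _ _
      refine ⟨(σ ++ sd k).length, Or.inr ?_⟩
      intro ρ hρ
      rw [← eq_pre_of_le h7] at hρ
      rw [he]
      exact (next_of_not hx).2 ρ hρ

/-- the jump of the set is below the halting set -/
theorem low_SA {D : ℕ → List Bool → Prop} (hh : Dec halting fun z : ℕ × List Bool => D z.1 z.2)
    (hd : ∀ n σ, ∃ α, D n (σ ++ α)) : Red (J (SA D)) halting :=
  ((J_mono (red_join_left (SA D) ∅)).trans (jump_join (generic_SA hd))).trans
    (join_red (red_SA hh hd) red_J_empty)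

/-- some low 1-generic set meets all sets of a uniformly `∅'`-decidable sequence of dense sets of
strings -/
theorem exists_low {D : ℕ → List Bool → Prop} (hh : Dec halting fun z : ℕ × List Bool => D z.1 z.2)
    (hd : ∀ n σ, ∃ α, D n (σ ++ α)) :
    ∃ A : Set ℕ, Generic A ∅ ∧ Red (J A) halting ∧ ∀ c, ∃ n, D c (pre A n) :=
  ⟨SA D, generic_SA hd, low_SA hh hd, bad_SA hd⟩

end KRD
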