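import Pool.Agent.KRD.Delta

/-!
# A slow function for which the question still fails, if it fails at all
-/

namespace KRD

open AC Low4 Encodable Denumerable

/-- every string of length `a` has an extension of length `b` without a host for `2 * c` -/
def Bd (U : List Bool →. ℕ) (c a b : ℕ) : Prop :=
  a < b ∧ ∀ σ : List Bool, σ.length = a → ∃ τ : List Bool, (τ.length = b ∧ σ <+: τ) ∧
    ¬ Host U (2 * c) τ

theorem dec_Bd {U : List Bool →. ℕ} (hU : IsOptimal ∅ U) :
    Dec halting fun z : ℕ × (ℕ × ℕ) => Bd U z.1 z.2.1 z.2.2 := by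
  have hh := dec_host hU
  have hlt : Dec halting fun z : ℕ × (ℕ × ℕ) => decide (z.2.1 < z.2.2) = true :=
    Dec.of_computable (Primrec.nat_lt.decide.to_comp.comp (Computable.fst.comp Computable.snd)
      (Computable.snd.comp Computable.snd))
  -- the extension relation
  have hx : Dec halting fun w : ((ℕ × (ℕ × ℕ)) × List Bool) × List Bool =>
      decide (w.2.length = w.1.1.2.2) = true ∧ decide (w.1.2 <+: w.2) = true := by
    refine Dec.and (Dec.of_computable ?_) (Dec.of_computable ?_)
    · exact ((Primrec.eq (α := ℕ)).decide.to_comp).comp (Computable.list_length.comp Computable.snd)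
        (Computable.snd.comp (Computable.snd.comp (Computable.fst.comp Computable.fst)))
    · exact Computable.comp (f := fun x : List Bool × List Bool => decide (x.1 <+: x.2))
        (g := fun w : ((ℕ × (ℕ × ℕ)) × List Bool) × List Bool => (w.1.2, w.2))
        computable_isPrefix (Computable.pair (Computable.snd.comp Computable.fst) Computable.snd)
  have e2c : Computable fun w : ((ℕ × (ℕ × ℕ)) × List Bool) × List Bool =>
      (2 * w.1.1.1, w.2) :=
    Computable.pair (Primrec.nat_double.to_comp.comp (Computable.fst.comp (Computable.fst.comp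
      Computable.fst))) Computable.snd
  have hHost : Dec halting fun w : ((ℕ × (ℕ × ℕ)) × List Bool) × List Bool =>
      Host U (2 * w.1.1.1) w.2 := hh.comp e2c
  have hA : Dec halting fun w : ((ℕ × (ℕ × ℕ)) × List Bool) × List Bool =>
      (decide (w.2.length = w.1.1.2.2) = true ∧ decide (w.1.2 <+: w.2) = true) ∧
        ¬ Host U (2 * w.1.1.1) w.2 := Dec.and hx (Dec.not hHost)
  constructor
  · have h1 : CE halting fun y : (ℕ × (ℕ × ℕ)) × List Bool => ∃ τ : List Bool,
        (decide (τ.length = y.1.2.2) = true ∧ decide (y.2 <+: τ) = true) ∧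
          ¬ Host U (2 * y.1.1) τ :=
      CE.ex (p := fun (y : (ℕ × (ℕ × ℕ)) × List Bool) (τ : List Bool) =>
        (decide (τ.length = y.1.2.2) = true ∧ decide (y.2 <+: τ) = true) ∧
          ¬ Host U (2 * y.1.1) τ) hA.1
    have h2 := ce_forall_strings (p := fun (z : ℕ × (ℕ × ℕ)) (σ : List Bool) =>
      ∃ τ : List Bool, (decide (τ.length = z.2.2) = true ∧ decide (σ <+: τ) = true) ∧
          ¬ Host U (2 * z.1) τ) (f := fun z => z.2.1) h1 (Computable.fst.comp Computable.snd)
    refine (hlt.1.and h2).of_eq fun z => ?_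
    simp only [decide_eq_true_eq]
    rfl
  · have h1 : CE halting fun y : (ℕ × (ℕ × ℕ)) × List Bool => ∀ τ : List Bool,
        τ.length = y.1.2.2 → ¬ (((decide (τ.length = y.1.2.2) = true ∧
          decide (y.2 <+: τ) = true)) ∧ ¬ Host U (2 * y.1.1) τ) :=
      ce_forall_strings (p := fun (y : (ℕ × (ℕ × ℕ)) × List Bool) (τ : List Bool) =>
        ¬ ((decide (τ.length = y.1.2.2) = true ∧ decide (y.2 <+: τ) = true) ∧
          ¬ Host U (2 * y.1.1) τ)) (f := fun y => y.1.2.2) hA.2
        (Computable.snd.comp (Computable.snd.comp Computable.fst))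
    have h2 : CE halting fun z : ℕ × (ℕ × ℕ) => ∃ σ : List Bool,
        decide (σ.length = z.2.1) = true ∧ ∀ τ : List Bool,
        τ.length = z.2.2 → ¬ (((decide (τ.length = z.2.2) = true ∧
          decide (σ <+: τ) = true)) ∧ ¬ Host U (2 * z.1) τ) := by
      refine CE.ex (p := fun (z : ℕ × (ℕ × ℕ)) (σ : List Bool) =>
        decide (σ.length = z.2.1) = true ∧ ∀ τ : List Bool,
        τ.length = z.2.2 → ¬ (((decide (τ.length = z.2.2) = true ∧
          decide (σ <+: τ) = true)) ∧ ¬ Host U (2 * z.1) τ)) (CE.and ?_ h1)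
      exact CE.of_sig1 (Sig1.of_computable (((Primrec.eq (α := ℕ)).decide.to_comp).comp
        (Computable.list_length.comp Computable.snd)
        (Computable.fst.comp (Computable.snd.comp Computable.fst))))
    refine (hlt.2.or h2).of_eq fun z => ?_
    simp only [decide_eq_true_eq]
    unfold Bd
    constructor
    · rintro (h3 | ⟨σ, h3, h4⟩) ⟨h5, h6⟩
      · exact h3 h5
      · obtain ⟨τ, h7, h8⟩ := h6 σ h3
        exact h4 τ h7.1 ⟨h7, h8⟩
    · intro h3
      by_cases h4 : z.2.1 < z.2.2
      · right
        by_contra h5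
        push Not at h5
        apply h3
        refine ⟨h4, fun σ hσ => ?_⟩
        obtain ⟨τ, h6, h7, h8⟩ := h5 σ hσ
        exact ⟨τ, h7, h8⟩
      · exact Or.inl h4

theorem not_host_append {U : List Bool →. ℕ} {c : ℕ} {τ ρ : List Bool} (h : ¬ Host U c τ) :
    ¬ Host U c (τ ++ ρ) := by
  intro h2
  have h3 := h2.take τ.length (by rw [List.length_append]; omega)
  rw [List.take_left] at h3
  exact h h3

theorem exists_Bd {U : List Bool →. ℕ} (hU : IsOptimal ∅ U) (h : ¬ Fin1 U) (c a : ℕ) :
    ∃ b, Bd U c a b := by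
  choose α hα using fun σ : List Bool => exists_bad hU h σ (2 * c)
  set b := ((TA.strs a).map fun σ => (α σ).length).sum + a + 1 with hb
  refine ⟨b, by omega, fun σ hσ => ?_⟩
  have h1 : (α σ).length ≤ ((TA.strs a).map fun σ => (α σ).length).sum :=
    List.single_le_sum (by simp) _ (List.mem_map_of_mem (f := fun σ => (α σ).length)
      (TA.mem_strs.2 hσ))
  refine ⟨(σ ++ α σ) ++ List.replicate (b - (σ ++ α σ).length) false, ⟨?_, ?_⟩, ?_⟩
  · rw [List.length_append, List.length_replicate]
    have : (σ ++ α σ).length ≤ b := by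
      rw [List.length_append]
      omega
    omega
  · rw [List.append_assoc]
    exact List.prefix_append _ _
  · exact not_host_append (hα σ)

/-- the least such number -/
def Nb (U : List Bool →. ℕ) (_ : Unit) (c a b : ℕ) : Prop :=
  Bd U c a b ∧ ∀ b' < b, ¬ Bd U c a b'

theorem ce_Nb {U : List Bool →. ℕ} (hU : IsOptimal ∅ U) :
    CE halting fun z : (Unit × ℕ) × (ℕ × ℕ) => Nb U z.1.1 z.1.2 z.2.1 z.2.2 := by
  have hb := dec_Bd hU
  unfold Nb
  refine CE.and ?_ ?_
  · exact hb.1.comp (f := fun z : (Unit × ℕ) × (ℕ × ℕ) => (z.1.2, (z.2.1, z.2.2)))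
      (Computable.pair (Computable.snd.comp Computable.fst)
        (Computable.pair (Computable.fst.comp Computable.snd) (Computable.snd.comp Computable.snd)))
  · refine CE.ball (p := fun (z : (Unit × ℕ) × (ℕ × ℕ)) (b' : ℕ) => ¬ Bd U z.1.2 z.2.1 b') ?_
      (Computable.snd.comp Computable.snd)
    exact hb.2.comp (f := fun w : ((Unit × ℕ) × (ℕ × ℕ)) × ℕ => (w.1.1.2, (w.1.2.1, w.2)))
      (Computable.pair (Computable.snd.comp (Computable.fst.comp Computable.fst))
        (Computable.pair (Computable.fst.comp (Computable.snd.comp Computable.fst)) Computable.snd))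

/-- the sequence of lengths -/
def Ms (U : List Bool →. ℕ) (n a : ℕ) : Prop := It (fun _ : Unit => (0 : ℕ)) (Nb U) () n a

theorem ce_Ms {U : List Bool →. ℕ} (hU : IsOptimal ∅ U) :
    CE halting fun z : ℕ × ℕ => Ms U z.1 z.2 := by
  have h := ce_It (A := halting) (x0 := fun _ : Unit => (0 : ℕ)) (N := Nb U)
    (Computable.const _) (ce_Nb hU)
  exact h.comp (f := fun z : ℕ × ℕ => ((), (z.1, z.2)))
    (Computable.pair (Computable.const ()) (Computable.pair Computable.fst Computable.snd))

theorem Nb_unique {U : List Bool →. ℕ} {n a b b' : ℕ} (h : Nb U () n a b) (h' : Nb U () n a b') :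
    b = b' := by
  rcases lt_trichotomy b b' with hk | hk | hk
  · exact absurd h.1 (h'.2 b hk)
  · exact hk
  · exact absurd h'.1 (h.2 b' hk)

theorem Ms_unique {U : List Bool →. ℕ} {n a b : ℕ} (h : Ms U n a) (h' : Ms U n b) : a = b := by
  induction n generalizing a b with
  | zero =>
    cases h
    cases h'
    rfl
  | succ n ih =>
    cases h with
    | succ h1 h2 =>
      cases h' with
      | succ h1' h2' =>
        have := ih h1 h1'
        subst this
        exact Nb_unique h2 h2'

theorem Ms_exists {U : List Bool →. ℕ} (hU : IsOptimal ∅ U) (h : ¬ Fin1 U) (n : ℕ) :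
    ∃ a, Ms U n a := by
  classical
  induction n with
  | zero => exact ⟨_, It.zero⟩
  | succ n ih =>
    obtain ⟨a, ha⟩ := ih
    have hex := exists_Bd hU h n a
    exact ⟨Nat.find hex, It.succ ha ⟨Nat.find_spec hex, fun j hj => Nat.find_min hex hj⟩⟩

theorem Ms_step {U : List Bool →. ℕ} {n a b : ℕ} (h : Ms U n a) (h' : Ms U (n + 1) b) :
    Bd U n a b := by
  cases h' with
  | succ h1 h2 =>
    rw [Ms_unique h h1]
    exact h2.1

end KRD
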