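import Pool.Agent.KRD.Basic

/-!
# Schnorr's theorem: 1-random means complexity at least the length up to a constant
-/

namespace KRD

open AC Low4 Encodable Denumerable
open MeasureTheory ProbabilityTheory ENNReal

/-! ### the two classes of predicates -/

theorem sig_of_ce_empty {α : Type} [Primcodable α] {p : α → Prop} (h : CE ∅ p) : Sig1 p := by
  obtain ⟨W, h1, -, h3⟩ := h
  have h4 : Sig1 fun x : α × ℕ => W (List.replicate x.2 false) x.1 := by
    have e : Computable fun n : ℕ => List.replicate n false := by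
      have h1 : Computable fun x : ℕ => (Nat.rec [] (fun _ (l : List Bool) => false :: l) x :
          List Bool) := by
        refine Computable.nat_rec (f := fun x : ℕ => x) (g := fun _ => ([] : List Bool))
          (h := fun (_ : ℕ) (q : ℕ × List Bool) => false :: q.2) Computable.id
          (Computable.const _) ?_
        exact (Computable.list_cons.comp (Computable.const false)
          (Computable.snd.comp Computable.snd)).to₂
      refine h1.of_eq fun x => ?_
      induction x with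
      | zero => rfl
      | succ x ih => rw [List.replicate_succ, ← ih]
    exact h1.comp (f := fun x : α × ℕ => (List.replicate x.2 false, x.1))
      (Computable.pair (e.comp Computable.snd) Computable.fst)
  refine (Sig1.ex (p := fun (a : α) (s : ℕ) => W (List.replicate s false) a) h4).of_eq fun a => ?_
  rw [h3]
  have h5 : ∀ s, pre ∅ s = List.replicate s false := by
    intro s
    apply List.ext_getElem?
    intro i
    by_cases hi : i < s
    · rw [pre_getElem? _ _ _ hi, List.getElem?_replicate, if_pos hi]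
      simp
    · rw [pre_getElem?_none _ _ _ (not_lt.1 hi), List.getElem?_replicate, if_neg hi]
  simp only [h5]

theorem sig_prog {U : List Bool →. ℕ} (hU : IsMachine ∅ U) :
    Sig1 fun z : List Bool × ℕ => z.2 ∈ U z.1 :=
  sig_of_ce_empty (ce_graph (A := ∅) hU.recursive)

/-- having a short program is a c.e. property -/
theorem sig_short {U : List Bool →. ℕ} (hU : IsMachine ∅ U) :
    Sig1 fun z : List Bool × ℕ => ∃ ρ : List Bool, encode z.1 ∈ U ρ ∧ ρ.length ≤ z.2 := by
  refine Sig1.ex (p := fun (z : List Bool × ℕ) (ρ : List Bool) =>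
    encode z.1 ∈ U ρ ∧ ρ.length ≤ z.2) ?_
  refine Sig1.and ?_ ?_
  · exact (sig_prog hU).comp (f := fun x : (List Bool × ℕ) × List Bool => (x.2, encode x.1.1))
      (Computable.pair Computable.snd (Computable.encode.comp
        (Computable.fst.comp Computable.fst)))
  · refine (Sig1.of_computable (f := fun x : (List Bool × ℕ) × List Bool =>
      decide (x.2.length ≤ x.1.2)) ?_).of_eq fun x => by simp
    exact Primrec.nat_le.decide.to_comp.comp (Computable.list_length.comp Computable.snd)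
      (Computable.snd.comp Computable.fst)

theorem short_iff {U : List Bool →. ℕ} (hU : IsOptimal ∅ U) (σ : List Bool) (k : ℕ) :
    (∃ ρ : List Bool, encode σ ∈ U ρ ∧ ρ.length ≤ k) ↔ kc U σ ≤ k := by
  constructor
  · rintro ⟨ρ, h1, h2⟩
    exact (KC_le h1).trans h2
  · intro h
    obtain ⟨ρ, h1, h2⟩ := exists_KC hU (encode σ)
    exact ⟨ρ, h1, h2.le.trans h⟩

/-! ### random sets have high complexity -/

theorem kraft_ennreal {S : Finset (List Bool)} (hp : ∀ σ ∈ S, ∀ τ ∈ S, σ <+: τ → σ = τ) :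
    ∑ σ ∈ S, (1 / 2 : ℝ≥0∞) ^ σ.length ≤ 1 := by
  have h := Kr.kraft S hp
  have h' : (∑ σ ∈ S, (1 / 2 : ℝ) ^ σ.length) ≤ 1 := by
    have h2 : ((∑ σ ∈ S, (1 / 2 : ℚ) ^ σ.length : ℚ) : ℝ) ≤ 1 := by exact_mod_cast h
    push_cast at h2
    exact h2
  have e : ∑ σ ∈ S, (1 / 2 : ℝ≥0∞) ^ σ.length =
      ENNReal.ofReal (∑ σ ∈ S, (1 / 2 : ℝ) ^ σ.length) := by
    rw [ENNReal.ofReal_sum_of_nonneg (fun _ _ => by positivity)]
    refine Finset.sum_congr rfl fun σ _ => ?_
    rw [ENNReal.ofReal_pow (by norm_num), ENNReal.ofReal_div_of_pos (by norm_num)]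
    simp
  rw [e]
  exact ENNReal.ofReal_le_one.2 h'

/-- the test given by a machine -/
def Wt (U : List Bool →. ℕ) (m : ℕ) (σ : List Bool) : Prop :=
  ∃ ρ : List Bool, encode σ ∈ U ρ ∧ ρ.length + m ≤ σ.length

theorem isMLTest_Wt {U : List Bool →. ℕ} (hU : IsMachine ∅ U) : IsMLTest (Wt U) := by
  refine ⟨?_, fun m => ?_⟩
  · refine Sig1.re ?_
    refine Sig1.ex (p := fun (z : ℕ × List Bool) (ρ : List Bool) =>
      encode z.2 ∈ U ρ ∧ ρ.length + z.1 ≤ z.2.length) ?_
    refine Sig1.and ?_ ?_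
    · exact (sig_prog hU).comp (f := fun x : (ℕ × List Bool) × List Bool => (x.2, encode x.1.2))
        (Computable.pair Computable.snd (Computable.encode.comp
          (Computable.snd.comp Computable.fst)))
    · refine (Sig1.of_computable (f := fun x : (ℕ × List Bool) × List Bool =>
        decide (x.2.length + x.1.1 ≤ x.1.2.length)) ?_).of_eq fun x => by simp
      exact Primrec.nat_le.decide.to_comp.comp (Primrec.nat_add.to_comp.comp
        (Computable.list_length.comp Computable.snd) (Computable.fst.comp Computable.fst))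
        (Computable.list_length.comp (Computable.snd.comp Computable.fst))
  · classical
    have hex : ∀ σ : {σ | Wt U m σ}, ∃ ρ : List Bool, encode σ.1 ∈ U ρ ∧
        ρ.length + m ≤ σ.1.length := fun σ => σ.2
    choose P hP1 hP2 using hex
    have hinj : Function.Injective P := by
      intro σ τ h
      have h1 := hP1 σ
      rw [h] at h1
      exact Subtype.ext (encode_injective (Part.mem_unique h1 (hP1 τ)))
    rw [Set.biUnion_eq_iUnion]
    refine (measure_iUnion_le _).trans ?_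
    rw [ENNReal.tsum_eq_iSup_sum]
    refine iSup_le fun F => ?_
    calc ∑ σ ∈ F, coin (cyl σ.1) ≤ ∑ σ ∈ F, (1 / 2 : ℝ≥0∞) ^ m * (1 / 2) ^ (P σ).length := by
          refine Finset.sum_le_sum fun σ _ => ?_
          refine (coin_cyl σ.1).trans ?_
          rw [← pow_add]
          refine pow_le_pow_of_le_one (by simp) (by norm_num) ?_
          have := hP2 σ
          omega
      _ = (1 / 2) ^ m * ∑ ρ ∈ F.image P, (1 / 2 : ℝ≥0∞) ^ ρ.length := by
          rw [← Finset.mul_sum, Finset.sum_image (fun a _ b _ h => hinj h)]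
      _ ≤ (1 / 2) ^ m * 1 := by
          refine mul_le_mul_right (kraft_ennreal ?_) _
          intro ρ hρ ρ' hρ' hpre
          obtain ⟨σ, -, rfl⟩ := Finset.mem_image.1 hρ
          obtain ⟨τ, -, rfl⟩ := Finset.mem_image.1 hρ'
          exact hU.prefixFree _ _ (Part.dom_iff_mem.2 ⟨_, hP1 σ⟩)
            (Part.dom_iff_mem.2 ⟨_, hP1 τ⟩) hpre
      _ = (1 / 2) ^ m := mul_one _

theorem high_of_random {U : List Bool →. ℕ} (hU : IsOptimal ∅ U) {B : Set ℕ} (hB : IsRandom B) :
    ∃ c : ℕ, ∀ n, n ≤ kc U (pre B n) + c := by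
  obtain ⟨m, hm⟩ := hB _ (isMLTest_Wt hU.machine)
  refine ⟨m, fun n => ?_⟩
  by_contra hcon
  apply hm
  rw [Set.mem_iUnion₂]
  refine ⟨pre B n, ?_, RanG.mem_cyl_pre B n⟩
  obtain ⟨ρ, h1, h2⟩ := exists_KC hU (encode (pre B n))
  refine ⟨ρ, h1, ?_⟩
  rw [pre_length, h2]
  unfold kc at hcon
  omega

/-! ### high complexity implies randomness -/

/-- the stage `s` approximation of the `m`-th open set, at the string `τ` -/
def Dm (R : ℕ × List Bool → ℕ → Bool) (m s : ℕ) (τ : List Bool) : Bool :=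
  bEx (fun l => bEx (fun k => R (m, τ.take l) k) (s + 1)) (s + 1)

theorem Dm_iff {R : ℕ × List Bool → ℕ → Bool} {m s : ℕ} {τ : List Bool} :
    Dm R m s τ = true ↔ ∃ l < s + 1, ∃ k < s + 1, R (m, τ.take l) k = true := by
  unfold Dm
  rw [bEx_iff]
  simp only [bEx_iff]

theorem Dm_mono {R : ℕ × List Bool → ℕ → Bool} {m s t : ℕ} (h : s ≤ t) {τ : List Bool}
    (h1 : Dm R m s (τ.take s) = true) : Dm R m t (τ.take t) = true := by
  rw [Dm_iff] at *
  obtain ⟨l, hl, k, hk, hR⟩ := h1
  refine ⟨l, by omega, k, by omega, ?_⟩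
  rw [List.take_take, min_eq_left (by omega)] at hR ⊢
  exact hR

/-- the new strings of length `s` -/
def nl (R : ℕ × List Bool → ℕ → Bool) (m s : ℕ) : List (List Bool) :=
  (TA.strs s).filterMap fun τ => cond (Dm R m s τ &&
    !(decide (0 < s) && Dm R m (s - 1) (τ.take (s - 1)))) (some τ) none

theorem nl_eq (R : ℕ × List Bool → ℕ → Bool) (m s : ℕ) :
    nl R m s = (TA.strs s).filter fun τ => Dm R m s τ &&
      !(decide (0 < s) && Dm R m (s - 1) (τ.take (s - 1))) := by
  unfold nl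
  rw [← List.filterMap_eq_filter]
  congr 1
  funext τ
  have key : ∀ b : Bool, (cond b (some τ) none : Option (List Bool)) =
      if b = true then some τ else none := by
    intro b; cases b <;> rfl
  exact key _

theorem mem_nl {R : ℕ × List Bool → ℕ → Bool} {m s : ℕ} {τ : List Bool} :
    τ ∈ nl R m s ↔ τ.length = s ∧ Dm R m s τ = true ∧
      ¬ (0 < s ∧ Dm R m (s - 1) (τ.take (s - 1)) = true) := by
  rw [nl_eq, List.mem_filter, TA.mem_strs, Bool.and_eq_true, Bool.not_eq_true',
    ← Bool.not_eq_true, Bool.and_eq_true, decide_eq_true_iff]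

theorem nodup_nl (R : ℕ × List Bool → ℕ → Bool) (m s : ℕ) : (nl R m s).Nodup := by
  rw [nl_eq]
  exact (TA.nodup_strs s).filter _

theorem primrec_bEx {α : Type} [Primcodable α] {R : α → ℕ → Bool} {f : α → ℕ} (hR : Primrec₂ R)
    (hf : Primrec f) : Primrec fun a => bEx (R a) (f a) := by
  refine Primrec.nat_rec' hf (Primrec.const false) (h := fun a p => p.2 || R a p.1) ?_
  exact (Primrec.or.comp (Primrec.snd.comp Primrec.snd)
    (hR.comp Primrec.fst (Primrec.fst.comp Primrec.snd))).to₂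

theorem primrec_Dm {R : ℕ × List Bool → ℕ → Bool} (hR : Primrec₂ R) :
    Primrec fun x : (ℕ × ℕ) × List Bool => Dm R x.1.1 x.1.2 x.2 := by
  unfold Dm
  have h2 : Primrec₂ fun (y : ((ℕ × ℕ) × List Bool) × ℕ) (k : ℕ) =>
      R (y.1.1.1, y.1.2.take y.2) k := by
    have h3 : Primrec fun z : (((ℕ × ℕ) × List Bool) × ℕ) × ℕ =>
        (z.1.1.1.1, z.1.1.2.take z.1.2) :=
      Primrec.pair (Primrec.fst.comp (Primrec.fst.comp (Primrec.fst.comp Primrec.fst)))
        (Primrec.list_take.comp (Primrec.snd.comp Primrec.fst)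
          (Primrec.snd.comp (Primrec.fst.comp Primrec.fst)))
    exact (hR.comp h3 Primrec.snd).to₂
  have h1 : Primrec₂ fun (y : (ℕ × ℕ) × List Bool) (l : ℕ) =>
      bEx (fun k => R (y.1.1, y.2.take l) k) (y.1.2 + 1) := by
    have := primrec_bEx (α := ((ℕ × ℕ) × List Bool) × ℕ)
      (R := fun y k => R (y.1.1.1, y.1.2.take y.2) k) (f := fun y => y.1.1.2 + 1) h2
      (Primrec.succ.comp (Primrec.snd.comp (Primrec.fst.comp Primrec.fst)))
    exact this.to₂
  exact primrec_bEx (α := (ℕ × ℕ) × List Bool)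
    (R := fun y l => bEx (fun k => R (y.1.1, y.2.take l) k) (y.1.2 + 1))
    (f := fun y => y.1.2 + 1) h1 (Primrec.succ.comp (Primrec.snd.comp Primrec.fst))

theorem primrec_nl {R : ℕ × List Bool → ℕ → Bool} (hR : Primrec₂ R) :
    Primrec fun x : ℕ × ℕ => nl R x.1 x.2 := by
  unfold nl
  refine Primrec.listFilterMap (f := fun x : ℕ × ℕ => TA.strs x.2)
    (g := fun x τ => cond (Dm R x.1 x.2 τ &&
      !(decide (0 < x.2) && Dm R x.1 (x.2 - 1) (τ.take (x.2 - 1)))) (some τ) none)
    (TA.primrec_strs.comp Primrec.snd) ?_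
  have h1 : Primrec fun y : (ℕ × ℕ) × List Bool => Dm R y.1.1 y.1.2 y.2 := primrec_Dm hR
  have hs : Primrec fun y : (ℕ × ℕ) × List Bool => y.1.2 - 1 :=
    Primrec.nat_sub.comp (Primrec.snd.comp Primrec.fst) (Primrec.const 1)
  have h2 : Primrec fun y : (ℕ × ℕ) × List Bool =>
      Dm R y.1.1 (y.1.2 - 1) (y.2.take (y.1.2 - 1)) :=
    (primrec_Dm hR).comp (Primrec.pair (Primrec.pair (Primrec.fst.comp Primrec.fst) hs)
      (Primrec.list_take.comp hs Primrec.snd))
  have h3 : Primrec fun y : (ℕ × ℕ) × List Bool => decide (0 < y.1.2) :=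
    Primrec.nat_lt.decide.comp (Primrec.const 0) (Primrec.snd.comp Primrec.fst)
  exact (Primrec.cond (Primrec.and.comp h1 (Primrec.not.comp (Primrec.and.comp h3 h2)))
    (Primrec.option_some.comp Primrec.snd) (Primrec.const none)).to₂

/-- the requests of the pair `(m, s) = u.unpair` -/
def blk (R : ℕ × List Bool → ℕ → Bool) (u : ℕ) : List (List Bool × ℕ) :=
  (nl R (2 * u.unpair.1 + 2) u.unpair.2).map fun τ =>
    (τ.take (u.unpair.2 - u.unpair.1), encode τ)

/-- the requests -/
def HR (R : ℕ × List Bool → ℕ → Bool) (σ : List Bool) : List (List Bool × ℕ) :=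
  (List.range σ.length).flatMap (blk R)

theorem primrec_blk {R : ℕ × List Bool → ℕ → Bool} (hR : Primrec₂ R) : Primrec (blk R) := by
  unfold blk
  have h1 : Primrec fun u : ℕ => u.unpair.1 := Primrec.fst.comp Primrec.unpair
  have h2 : Primrec fun u : ℕ => u.unpair.2 := Primrec.snd.comp Primrec.unpair
  refine Primrec.list_map (f := fun u : ℕ => nl R (2 * u.unpair.1 + 2) u.unpair.2)
    (g := fun u τ => (τ.take (u.unpair.2 - u.unpair.1), encode τ)) ?_ ?_
  · exact (primrec_nl hR).comp (Primrec.pair (Primrec.nat_add.comp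
      (Primrec.nat_mul.comp (Primrec.const 2) h1) (Primrec.const 2)) h2)
  · exact (Primrec.pair (Primrec.list_take.comp (Primrec.nat_sub.comp (h2.comp Primrec.fst)
      (h1.comp Primrec.fst)) Primrec.snd) (Primrec.encode.comp Primrec.snd)).to₂

theorem primrec_HR {R : ℕ × List Bool → ℕ → Bool} (hR : Primrec₂ R) : Primrec (HR R) := by
  unfold HR
  exact Primrec.list_flatMap (f := fun σ : List Bool => List.range σ.length)
    (g := fun _ u => blk R u) (Primrec.list_range.comp Primrec.list_length)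
    ((primrec_blk hR).comp Primrec.snd).to₂

theorem HR_mono (R : ℕ × List Bool → ℕ → Bool) (σ τ : List Bool) (h : σ <+: τ) :
    HR R σ <+: HR R τ := by
  unfold HR
  obtain ⟨k, hk⟩ := Nat.exists_eq_add_of_le h.length_le
  rw [hk, List.range_add, List.flatMap_append]
  exact List.prefix_append _ _

/-- prefix-freeness of the new strings -/
theorem nl_disjoint {R : ℕ × List Bool → ℕ → Bool} {m s t : ℕ} {σ τ : List Bool}
    (hσ : σ ∈ nl R m s) (hτ : τ ∈ nl R m t) (hne : σ ≠ τ) : Disjoint (cyl σ) (cyl τ) := by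
  have key : ∀ (s t : ℕ) (σ τ : List Bool), σ ∈ nl R m s → τ ∈ nl R m t → s < t →
      Disjoint (cyl σ) (cyl τ) := by
    intro s t σ τ hσ hτ hst
    rw [Set.disjoint_left]
    intro x h1 h2
    obtain ⟨a1, a2, -⟩ := mem_nl.1 hσ
    obtain ⟨b1, -, b3⟩ := mem_nl.1 hτ
    apply b3
    refine ⟨by omega, ?_⟩
    have e1 := RanG.pre_of_mem_cyl h1
    have e2 := RanG.pre_of_mem_cyl h2
    have e3 : τ.take s = σ := by
      rw [← e2, pre_take _ _ _ (by omega), ← a1, e1]
    refine Dm_mono (s := s) (t := t - 1) (by omega) ?_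
    rw [e3]
    exact a2
  rcases lt_trichotomy s t with h | h | h
  · exact key s t σ τ hσ hτ h
  · exact RanG.cyl_disjoint ((mem_nl.1 hσ).1.trans (h.trans (mem_nl.1 hτ).1.symm)) hne
  · exact (key t s τ σ hτ hσ h).symm

theorem sum_nl_le {R : ℕ × List Bool → ℕ → Bool} {W : ℕ → List Bool → Prop} (hW : IsMLTest W)
    (hR : ∀ a : ℕ × List Bool, W a.1 a.2 ↔ ∃ k, R a k = true) (m S : ℕ) :
    ∑ s ∈ Finset.range S, ((nl R m s).length : ℝ≥0∞) * (1 / 2) ^ s ≤ (1 / 2) ^ m := by
  classical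
  set F : Finset (List Bool) := (Finset.range S).biUnion fun s => (nl R m s).toFinset with hF
  have h1 : ∑ s ∈ Finset.range S, ((nl R m s).length : ℝ≥0∞) * (1 / 2) ^ s =
      ∑ σ ∈ F, (1 / 2 : ℝ≥0∞) ^ σ.length := by
    rw [hF, Finset.sum_biUnion]
    · refine Finset.sum_congr rfl fun s _ => ?_
      rw [Finset.sum_congr rfl (g := fun _ => (1 / 2 : ℝ≥0∞) ^ s), Finset.sum_const,
        List.toFinset_card_of_nodup (nodup_nl R m s), nsmul_eq_mul]
      intro σ hσ
      rw [(mem_nl.1 (List.mem_toFinset.1 hσ)).1]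
    · intro s _ t _ hst
      simp only [Function.onFun]
      rw [Finset.disjoint_left]
      intro σ h1 h2
      apply hst
      rw [← (mem_nl.1 (List.mem_toFinset.1 h1)).1, ← (mem_nl.1 (List.mem_toFinset.1 h2)).1]
  have h2 : ∑ σ ∈ F, (1 / 2 : ℝ≥0∞) ^ σ.length = coin (⋃ σ ∈ F, cyl σ) := by
    rw [measure_biUnion_finset]
    · exact Finset.sum_congr rfl fun σ _ => (RanG.coin_cyl_eq σ).symm
    · intro σ hσ τ hτ hne
      rw [hF] at hσ hτ
      simp only [Finset.coe_biUnion, Set.mem_iUnion, Finset.mem_coe, List.mem_toFinset] at hσ hτ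
      obtain ⟨s, -, hs⟩ := hσ
      obtain ⟨t, -, ht⟩ := hτ
      exact nl_disjoint hs ht hne
    · intro σ _
      exact RanG.measurableSet_cyl σ
  rw [h1, h2]
  refine (measure_mono ?_).trans (hW.small m)
  intro x hx
  rw [Set.mem_iUnion₂] at hx ⊢
  obtain ⟨σ, hσ, hx⟩ := hx
  rw [hF, Finset.mem_biUnion] at hσ
  obtain ⟨s, -, hs⟩ := hσ
  obtain ⟨a1, a2, -⟩ := mem_nl.1 (List.mem_toFinset.1 hs)
  obtain ⟨l, hl, k, -, hk⟩ := Dm_iff.1 a2
  refine ⟨σ.take l, (hR (m, σ.take l)).2 ⟨k, hk⟩, ?_⟩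
  intro i b hb
  apply hx i b
  rw [List.getElem?_take] at hb
  by_cases hi : i < l
  · rwa [if_pos hi] at hb
  · rw [if_neg hi] at hb
    exact absurd hb (by simp)

theorem nl_empty {R : ℕ × List Bool → ℕ → Bool} {W : ℕ → List Bool → Prop} (hW : IsMLTest W)
    (hR : ∀ a : ℕ × List Bool, W a.1 a.2 ↔ ∃ k, R a k = true) {m s : ℕ} (h : s < m) :
    nl R m s = [] := by
  by_contra hne
  have h1 := sum_nl_le hW hR m (s + 1)
  rw [Finset.sum_range_succ] at h1
  have h2 : (1 / 2 : ℝ≥0∞) ^ s ≤ (1 / 2) ^ m := by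
    refine le_trans ?_ h1
    refine le_trans ?_ le_add_self
    have h3 : (1 : ℝ≥0∞) ≤ ((nl R m s).length : ℝ≥0∞) := by
      have : 1 ≤ (nl R m s).length := by
        rcases hl : nl R m s with _ | ⟨a, l⟩
        · exact absurd hl hne
        · simp
      exact_mod_cast this
    calc (1 / 2 : ℝ≥0∞) ^ s = 1 * (1 / 2) ^ s := (one_mul _).symm
      _ ≤ _ := mul_le_mul_left h3 _
  have h4 : (1 / 2 : ℝ) ^ s ≤ (1 / 2) ^ m := by
    have h5 := ENNReal.toReal_mono (by finiteness) h2
    simpa using h5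
  have h6 : (1 / 2 : ℝ) ^ m < (1 / 2) ^ s :=
    pow_lt_pow_right_of_lt_one₀ (by norm_num) (by norm_num) h
  exact absurd h4 (not_le.2 h6)

theorem pw_blk {R : ℕ × List Bool → ℕ → Bool} {W : ℕ → List Bool → Prop} (hW : IsMLTest W)
    (hR : ∀ a : ℕ × List Bool, W a.1 a.2 ↔ ∃ k, R a k = true) (m s : ℕ) :
    pw (blk R (Nat.pair m s)) = ((nl R (2 * m + 2) s).length : ℚ) * (1 / 2) ^ s * 2 ^ m := by
  unfold blk pw
  rw [Nat.unpair_pair, List.map_map]
  by_cases h : s < m
  · rw [nl_empty hW hR (by omega)]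
    simp
  · rw [List.map_congr_left (g := fun _ => (1 / 2 : ℚ) ^ (s - m))]
    · rw [List.map_const', List.sum_replicate, nsmul_eq_mul, mul_assoc]
      congr 1
      obtain ⟨k, rfl⟩ := Nat.exists_eq_add_of_le (not_lt.1 h)
      rw [Nat.add_sub_cancel_left, pow_add, mul_comm ((1 / 2 : ℚ) ^ m), mul_assoc, ← mul_pow]
      norm_num
    · intro τ hτ
      have h1 := (mem_nl.1 hτ).1
      simp only [Function.comp_apply, List.length_take, h1]
      rw [min_eq_left (Nat.sub_le _ _)]

theorem sum_nl_rat {R : ℕ × List Bool → ℕ → Bool} {W : ℕ → List Bool → Prop} (hW : IsMLTest W)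
    (hR : ∀ a : ℕ × List Bool, W a.1 a.2 ↔ ∃ k, R a k = true) (m S : ℕ) :
    ∑ s ∈ Finset.range S, ((nl R m s).length : ℚ) * (1 / 2) ^ s ≤ (1 / 2) ^ m := by
  have h1 := ENNReal.toReal_mono (by finiteness) (sum_nl_le hW hR m S)
  rw [ENNReal.toReal_sum (fun s _ => by finiteness)] at h1
  have h2 : ((∑ s ∈ Finset.range S, ((nl R m s).length : ℚ) * (1 / 2) ^ s : ℚ) : ℝ) ≤
      (((1 / 2) ^ m : ℚ) : ℝ) := by
    push_cast
    simpa using h1
  exact_mod_cast h2

theorem list_sum_range (f : ℕ → ℚ) (n : ℕ) :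
    ((List.range n).map f).sum = ∑ u ∈ Finset.range n, f u := by
  induction n with
  | zero => simp
  | succ n ih => rw [List.range_succ, List.map_append, List.sum_append, ih,
      Finset.sum_range_succ]; simp

theorem pw_HR {R : ℕ × List Bool → ℕ → Bool} {W : ℕ → List Bool → Prop} (hW : IsMLTest W)
    (hR : ∀ a : ℕ × List Bool, W a.1 a.2 ↔ ∃ k, R a k = true) (σ : List Bool) :
    pw (HR R σ) ≤ 2 := by
  classical
  have h1 : ∀ l : List ℕ, pw (l.flatMap (blk R)) = (l.map fun u => pw (blk R u)).sum := by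
    intro l
    induction l with
    | nil => simp [pw]
    | cons u l ih => rw [List.flatMap_cons, pw_append, ih, List.map_cons, List.sum_cons]
  unfold HR
  rw [h1, list_sum_range]
  set t := σ.length
  have h2 : ∑ u ∈ Finset.range t, pw (blk R u) ≤
      ∑ p ∈ Finset.range t ×ˢ Finset.range t, pw (blk R (Nat.pair p.1 p.2)) := by
    have h3 : ∑ u ∈ Finset.range t, pw (blk R u) =
        ∑ p ∈ (Finset.range t).image Nat.unpair, pw (blk R (Nat.pair p.1 p.2)) := by
      rw [Finset.sum_image (fun a _ b _ h => by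
        rw [← Nat.pair_unpair a, ← Nat.pair_unpair b, h])]
      exact Finset.sum_congr rfl fun u _ => by rw [Nat.pair_unpair]
    rw [h3]
    refine Finset.sum_le_sum_of_subset_of_nonneg ?_ fun _ _ _ => pw_nonneg _
    intro p hp
    obtain ⟨u, hu, rfl⟩ := Finset.mem_image.1 hp
    rw [Finset.mem_range] at hu
    rw [Finset.mem_product, Finset.mem_range, Finset.mem_range]
    exact ⟨lt_of_le_of_lt (Nat.unpair_left_le u) hu, lt_of_le_of_lt (Nat.unpair_right_le u) hu⟩
  refine h2.trans ?_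
  rw [Finset.sum_product]
  have h4 : ∀ m ∈ Finset.range t, ∑ s ∈ Finset.range t, pw (blk R (Nat.pair m s)) ≤
      (1 / 2 : ℚ) ^ m := by
    intro m _
    calc ∑ s ∈ Finset.range t, pw (blk R (Nat.pair m s))
        = (∑ s ∈ Finset.range t, ((nl R (2 * m + 2) s).length : ℚ) * (1 / 2) ^ s) * 2 ^ m := by
          rw [Finset.sum_mul]
          exact Finset.sum_congr rfl fun s _ => pw_blk hW hR m s
      _ ≤ (1 / 2) ^ (2 * m + 2) * 2 ^ m :=
          mul_le_mul_of_nonneg_right (sum_nl_rat hW hR _ _) (by positivity)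
      _ ≤ (1 / 2) ^ m := by
          have e : (1 / 2 : ℚ) ^ (2 * m + 2) * 2 ^ m = (1 / 2) ^ m * (1 / 4) := by
            rw [show 2 * m + 2 = m + (m + 2) by ring, pow_add, pow_add (1 / 2 : ℚ) m 2]
            calc (1 / 2 : ℚ) ^ m * ((1 / 2) ^ m * (1 / 2) ^ 2) * 2 ^ m
                = (1 / 2) ^ m * ((1 / 2 * 2) ^ m * (1 / 2) ^ 2) := by rw [mul_pow]; ring
              _ = _ := by norm_num
          rw [e]
          have : (0 : ℚ) ≤ (1 / 2) ^ m := by positivity
          linarith
  refine (Finset.sum_le_sum h4).trans ?_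
  have h5 : ∀ n : ℕ, ∑ m ∈ Finset.range n, (1 / 2 : ℚ) ^ m = 2 - 2 * (1 / 2) ^ n := by
    intro n
    induction n with
    | zero => norm_num
    | succ n ih => rw [Finset.sum_range_succ, ih, pow_succ]; ring
  rw [h5]
  have : (0 : ℚ) ≤ (1 / 2) ^ t := by positivity
  linarith

theorem random_of_high {U : List Bool →. ℕ} (hU : IsOptimal ∅ U) {B : Set ℕ} {c : ℕ}
    (hc : ∀ n, n ≤ kc U (pre B n) + c) : IsRandom B := by
  intro W hW
  by_contra hcon
  push Not at hcon
  obtain ⟨R, hR, hR2⟩ := primrec_nf (Sig1.of_re hW.re)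
  obtain ⟨M, hM, hM2⟩ := exists_machine (HR R) (primrec_HR hR).to_comp (HR_mono R)
    (pw_HR hW hR2) ∅
  obtain ⟨d, hd⟩ := hU.simulates M hM
  set m := c + d + 3 with hm
  have h1 := hcon (2 * m + 2)
  rw [Set.mem_iUnion₂] at h1
  obtain ⟨σ, h2, h3⟩ := h1
  have h4 : pre B σ.length = σ := by
    have h5 := RanG.pre_of_mem_cyl h3
    rw [← h5]
    congr 1
    · ext n
      simp
    · rw [pre_length]
  obtain ⟨k, hk⟩ := (hR2 (2 * m + 2, σ)).1 h2
  -- the least level at which the test sees `B`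
  have hex : ∃ s, Dm R (2 * m + 2) s (pre B s) = true := by
    refine ⟨max σ.length k, Dm_iff.2 ⟨σ.length, by omega, k, by omega, ?_⟩⟩
    rw [pre_take _ _ _ (le_max_left _ _), h4]
    exact hk
  classical
  set s := Nat.find hex with hs
  have h6 : pre B s ∈ nl R (2 * m + 2) s := by
    rw [mem_nl]
    refine ⟨pre_length B s, Nat.find_spec hex, ?_⟩
    rintro ⟨h7, h8⟩
    rw [pre_take _ _ _ (Nat.sub_le _ _)] at h8
    exact Nat.find_min hex (m := s - 1) (by omega) h8
  have h7 : 2 * m + 2 ≤ s := by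
    by_contra h8
    rw [nl_empty hW hR2 (not_le.1 h8)] at h6
    exact absurd h6 (by simp)
  have h8 : ((pre B s).take (s - m), encode (pre B s)) ∈ HR R (pre ∅ (Nat.pair m s + 1)) := by
    unfold HR
    rw [List.mem_flatMap]
    refine ⟨Nat.pair m s, by rw [pre_length, List.mem_range]; omega, ?_⟩
    unfold blk
    rw [Nat.unpair_pair, List.mem_map]
    exact ⟨pre B s, h6, rfl⟩
  obtain ⟨τ, h9, h10⟩ := hM2 _ _ h8
  obtain ⟨ρ, h11, h12⟩ := hd τ _ h9
  have h13 : kc U (pre B s) ≤ ρ.length := KC_le h11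
  have h14 := hc s
  rw [List.length_take, pre_length, min_eq_left (Nat.sub_le _ _)] at h10
  omega

/-- **Schnorr's theorem** -/
theorem schnorr {U : List Bool →. ℕ} (hU : IsOptimal ∅ U) {B : Set ℕ} :
    IsRandom B ↔ ∃ c : ℕ, ∀ n, n ≤ kc U (pre B n) + c :=
  ⟨high_of_random hU, fun ⟨_, hc⟩ => random_of_high hU hc⟩

end KRD
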