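import Pool.Agent.KRD.Order

/-!
# The slow function
-/

namespace KRD

open AC Low4 Encodable Denumerable

theorem exists_m {U : List Bool →. ℕ} (hU : IsOptimal ∅ U) (h : ¬ Fin1 U) :
    ∃ m : ℕ → ℕ, (∀ n a, Ms U n a ↔ m n = a) ∧ ∀ n, Bd U n (m n) (m (n + 1)) := by
  choose m hm using Ms_exists hU h
  refine ⟨m, fun n a => ⟨fun ha => Ms_unique (hm n) ha, ?_⟩, fun n => Ms_step (hm n) (hm (n + 1))⟩
  rintro rfl
  exact hm n

/-- an order function: nondecreasing and unbounded -/
def IsOrd (f : ℕ → ℕ) : Prop := Monotone f ∧ ∀ k, ∃ n, k ≤ f n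

theorem exists_order {U : List Bool →. ℕ} (hU : IsOptimal ∅ U) (h : ¬ Fin1 U) :
    ∃ f : ℕ → ℕ, IsOrd f ∧ (CE halting fun z : ℕ × ℕ => f z.1 = z.2) ∧
      ∀ c σ, ∃ α, ¬ Host U (f (σ ++ α).length + c) (σ ++ α) := by
  classical
  obtain ⟨m, hm, hB⟩ := exists_m hU h
  have hlt : ∀ n, m n < m (n + 1) := fun n => (hB n).1
  have hmono : StrictMono m := strictMono_nat_of_lt_succ hlt
  have hid : ∀ n, n ≤ m n := fun n => hmono.le_apply
  have hex : ∀ n, ∃ c, n ≤ m (c + 1) := fun n => ⟨n, (hid n).trans (hlt n).le⟩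
  refine ⟨fun n => Nat.find (hex n), ⟨?_, ?_⟩, ?_, ?_⟩
  · intro a b hab
    exact Nat.find_min' (hex a) (hab.trans (Nat.find_spec (hex b)))
  · intro k
    refine ⟨m (k + 1) + 1, ?_⟩
    by_contra hcon
    push Not at hcon
    have h1 := Nat.find_spec (hex (m (k + 1) + 1))
    have h2 : m (Nat.find (hex (m (k + 1) + 1)) + 1) ≤ m (k + 1) := hmono.monotone (by omega)
    omega
  · have hMs := ce_Ms hU
    have e1 : CE halting fun z : ℕ × ℕ => ∃ b, Ms U (z.2 + 1) b ∧ decide (z.1 ≤ b) = true := by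
      refine CE.ex (p := fun (z : ℕ × ℕ) (b : ℕ) => Ms U (z.2 + 1) b ∧ decide (z.1 ≤ b) = true)
        (CE.and ?_ ?_)
      · exact hMs.comp (f := fun y : (ℕ × ℕ) × ℕ => (y.1.2 + 1, y.2))
          (Computable.pair (Computable.succ.comp (Computable.snd.comp Computable.fst))
            Computable.snd)
      · exact CE.of_sig1 (Sig1.of_computable (Primrec.nat_le.decide.to_comp.comp
          (Computable.fst.comp Computable.fst) Computable.snd))
    have e2 : CE halting fun z : ℕ × ℕ => ∀ c < z.2, ∃ b, Ms U (c + 1) b ∧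
        decide (b < z.1) = true := by
      refine CE.ball (p := fun (z : ℕ × ℕ) (c : ℕ) => ∃ b, Ms U (c + 1) b ∧
        decide (b < z.1) = true) ?_ Computable.snd
      refine CE.ex (p := fun (y : (ℕ × ℕ) × ℕ) (b : ℕ) => Ms U (y.2 + 1) b ∧
        decide (b < y.1.1) = true) (CE.and ?_ ?_)
      · exact hMs.comp (f := fun y : ((ℕ × ℕ) × ℕ) × ℕ => (y.1.2 + 1, y.2))
          (Computable.pair (Computable.succ.comp (Computable.snd.comp Computable.fst))
            Computable.snd)
      · exact CE.of_sig1 (Sig1.of_computable (Primrec.nat_lt.decide.to_comp.comp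
          Computable.snd (Computable.fst.comp (Computable.fst.comp Computable.fst))))
    refine (e1.and e2).of_eq fun z => ?_
    simp only [decide_eq_true_eq, hm]
    rw [Nat.find_eq_iff]
    constructor
    · rintro ⟨⟨b, rfl, h2⟩, h3⟩
      refine ⟨h2, fun c hc => ?_⟩
      obtain ⟨b, rfl, h5⟩ := h3 c hc
      omega
    · rintro ⟨h2, h3⟩
      exact ⟨⟨_, rfl, h2⟩, fun c hc => ⟨_, rfl, not_le.1 (h3 c hc)⟩⟩
  · intro c0 σ
    set c := max c0 σ.length with hc
    have h1 : σ.length ≤ m c := (le_max_right _ _).trans (hid c)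
    obtain ⟨τ, ⟨h2, h3⟩, h4⟩ := (hB c).2 (σ ++ List.replicate (m c - σ.length) false) (by
      rw [List.length_append, List.length_replicate]
      omega)
    obtain ⟨ρ, rfl⟩ := h3
    refine ⟨List.replicate (m c - σ.length) false ++ ρ, ?_⟩
    rw [← List.append_assoc]
    intro h5
    apply h4
    refine h5.mono ?_
    have h6 : Nat.find (hex ((σ ++ List.replicate (m c - σ.length) false) ++ ρ).length) ≤ c :=
      Nat.find_min' _ (by rw [h2])
    have h7 : c0 ≤ c := le_max_left _ _
    show Nat.find (hex ((σ ++ List.replicate (m c - σ.length) false) ++ ρ).length) + c0 ≤ 2 * c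
    omega

/-- the strings without a host up to the error `f` -/
def NoHost (U : List Bool →. ℕ) (f : ℕ → ℕ) (c : ℕ) (α : List Bool) : Prop :=
  ¬ Host U (f α.length + c) α

theorem dec_NoHost {U : List Bool →. ℕ} (hU : IsOptimal ∅ U) {f : ℕ → ℕ}
    (hf : CE halting fun z : ℕ × ℕ => f z.1 = z.2) :
    Dec halting fun z : ℕ × List Bool => NoHost U f z.1 z.2 := by
  have hh := dec_host hU
  have e1 : CE halting fun w : (ℕ × List Bool) × ℕ => f w.1.2.length = w.2 :=
    hf.comp (f := fun w : (ℕ × List Bool) × ℕ => (w.1.2.length, w.2))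
      (Computable.pair (Computable.list_length.comp (Computable.snd.comp Computable.fst))
        Computable.snd)
  have e2 : Computable fun w : (ℕ × List Bool) × ℕ => (w.2 + w.1.1, w.1.2) :=
    Computable.pair (Primrec.nat_add.to_comp.comp Computable.snd
      (Computable.fst.comp Computable.fst)) (Computable.snd.comp Computable.fst)
  constructor
  · refine (CE.ex (p := fun (z : ℕ × List Bool) (v : ℕ) => f z.2.length = v ∧
      ¬ Host U (v + z.1) z.2) (e1.and (hh.2.comp e2))).of_eq fun z => ?_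
    constructor
    · rintro ⟨v, rfl, h2⟩
      exact h2
    · intro h2
      exact ⟨_, rfl, h2⟩
  · refine (CE.ex (p := fun (z : ℕ × List Bool) (v : ℕ) => f z.2.length = v ∧
      Host U (v + z.1) z.2) (e1.and (hh.1.comp e2))).of_eq fun z => ?_
    constructor
    · rintro ⟨v, rfl, h2⟩ h3
      exact h3 h2
    · intro h2
      exact ⟨_, rfl, not_not.1 h2⟩

/-- `B` is above `A` and above the random level, up to the error `f` -/
def Above (U : List Bool →. ℕ) (f : ℕ → ℕ) (c : ℕ) (A B : Set ℕ) : Prop :=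
  ∀ n, n ≤ kc U (pre B n) + f n + c ∧ kc U (pre A n) ≤ kc U (pre B n) + f n + c

theorem Above.host {U : List Bool →. ℕ} {f : ℕ → ℕ} (hf : Monotone f) {c : ℕ} {A B : Set ℕ}
    (h : Above U f c A B) (n : ℕ) : ¬ NoHost U f c (pre A n) := by
  unfold NoHost
  rw [not_not, pre_length]
  refine ⟨pre B n, by simp, fun i hi => ?_⟩
  have hi' : i ≤ n := by simpa using hi
  rw [pre_take A _ _ hi', pre_take B _ _ hi']
  have h1 := h i
  have h2 := hf hi'
  omega

end KRD
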